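import Pool.Agent.H12.KTH.Stmts

/-!
# Row TMS: the free times are uniform and far from each other
-/

set_option autoImplicit false

namespace Pool.KTH

open Finset Real
open Pool.Agent.H49.Ent Pool.Agent.H32.Dense

namespace TMS

variable {d J : ℕ}

/-- The entropy of a time is at most `lm J`. -/
lemma time_le {Ω : Type} [Fintype Ω] {δ : Type} {q : Ω → ℝ} (hq : ∀ w, 0 ≤ q w)
    (h1 : ∑ w, q w = 1) {x : Ω → ℤ}
    (hx : ∀ w, 0 < q w → 0 ≤ x w ∧ x w < ((2 ^ J : ℕ) : ℤ)) (W : Ω → δ) :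
    CH q x W ≤ lm J := by
  have h := CH_time_le (M := 2 ^ J) hq h1 hx W
  have e : Real.log ((2 ^ J : ℕ) : ℝ) = lm J := by
    unfold lm
    push_cast
    rw [Real.log_pow]
  rwa [e] at h

lemma gp_symm (x y : ℤ) : gp J x y = gp J y x := by
  unfold gp
  rw [abs_sub_comm]

lemma gp_nonneg (x y : ℤ) : 0 ≤ gp J x y := by
  unfold gp
  apply Real.log_nonneg
  have : (0 : ℝ) ≤ 2 ^ J / max 1 |(x : ℝ) - y| :=
    div_nonneg (by positivity) (le_trans zero_le_one (le_max_left _ _))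
  linarith

lemma eg_symm (F : Cf d J) (x y : F.Ω → ℤ) : F.eg x y = F.eg y x := by
  unfold Cf.eg
  congr 1
  funext w
  exact gp_symm _ _

/-- One of four variables. -/
lemma one_of_four {Ω : Type} [Fintype Ω] {δ : Type} {q : Ω → ℝ} (hq : ∀ w, 0 ≤ q w)
    (h1 : ∑ w, q w = 1) {x y z t : Ω → ℤ} {W : Ω → δ}
    (hy : ∀ w, 0 < q w → 0 ≤ y w ∧ y w < ((2 ^ J : ℕ) : ℤ))
    (hz : ∀ w, 0 < q w → 0 ≤ z w ∧ z w < ((2 ^ J : ℕ) : ℤ))
    (ht : ∀ w, 0 < q w → 0 ≤ t w ∧ t w < ((2 ^ J : ℕ) : ℤ)) {e : ℝ}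
    (h : 4 * lm J - e ≤ CH q (fun w => (x w, (y w, z w, t w))) W) :
    lm J - e ≤ CH q x (fun w => ((y w, z w, t w), W w)) := by
  have a1 := CH_chain hq x (fun w => (y w, z w, t w)) W
  have a2 := CH_subadd hq y (fun w => (z w, t w)) W
  have a3 := CH_subadd hq z t W
  have b1 := time_le (J := J) hq h1 hy W
  have b2 := time_le (J := J) hq h1 hz W
  have b3 := time_le (J := J) hq h1 ht W
  linarith

/-- Each of the four free times is uniform given all the other variables. -/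
lemma unif (F : Cf d J) (L sb e : ℝ) (h : F.Ok L sb e) :
    lm J - e ≤ CH F.q F.t₁ (fun w => (F.v3 w, (F.t w, F.s w), (F.r w, F.tr w, F.ta w), F.Z w)) ∧
    lm J - e ≤ CH F.q F.r (fun w => (F.v3 w, (F.t w, F.s w), (F.t₁ w, F.tr w, F.ta w), F.Z w)) ∧
    lm J - e ≤ CH F.q F.tr (fun w => (F.v3 w, (F.t w, F.s w), (F.t₁ w, F.r w, F.ta w), F.Z w)) ∧
    lm J - e ≤ CH F.q F.ta
      (fun w => (F.v3 w, (F.t w, F.s w), (F.t₁ w, F.r w, F.tr w), F.Z w)) := by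
  have hq := F.hq
  have h1 := F.h1
  have hc := h.ct
  refine ⟨?_, ?_, ?_, ?_⟩
  · have e1 : CH F.q (fun w => ((F.t₁ w, F.r w), F.tr w, F.ta w))
        (fun w => ((F.v₀ w, F.v₁ w, F.v₂ w), (F.t w, F.s w), F.Z w)) =
        CH F.q (fun w => (F.t₁ w, (F.r w, F.tr w, F.ta w)))
        (fun w => ((F.v₀ w, F.v₁ w, F.v₂ w), (F.t w, F.s w), F.Z w)) := by
      refine CH_congr hq ?_ ?_ (fun _ _ _ _ h => h) (fun _ _ _ _ h => h) <;>
      · intro w w' _ _ hh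
        simp only [Prod.mk.injEq] at hh ⊢
        tauto
    rw [e1] at hc
    refine (one_of_four hq h1 F.hr F.htr F.hta hc).trans (le_of_eq ?_)
    refine CH_congr hq (fun w w' _ _ hh => (Prod.ext_iff.mp hh).1)
      (fun w w' _ _ hh => (Prod.ext_iff.mp hh).1) ?_ ?_ <;>
    · intro w w' _ _ hh
      simp only [Cf.v3, Prod.mk.injEq] at hh ⊢
      tauto
  · have e1 : CH F.q (fun w => ((F.t₁ w, F.r w), F.tr w, F.ta w))
        (fun w => ((F.v₀ w, F.v₁ w, F.v₂ w), (F.t w, F.s w), F.Z w)) =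
        CH F.q (fun w => (F.r w, (F.t₁ w, F.tr w, F.ta w)))
        (fun w => ((F.v₀ w, F.v₁ w, F.v₂ w), (F.t w, F.s w), F.Z w)) := by
      refine CH_congr hq ?_ ?_ (fun _ _ _ _ h => h) (fun _ _ _ _ h => h) <;>
      · intro w w' _ _ hh
        simp only [Prod.mk.injEq] at hh ⊢
        tauto
    rw [e1] at hc
    refine (one_of_four hq h1 F.ht₁ F.htr F.hta hc).trans (le_of_eq ?_)
    refine CH_congr hq (fun w w' _ _ hh => (Prod.ext_iff.mp hh).1)
      (fun w w' _ _ hh => (Prod.ext_iff.mp hh).1) ?_ ?_ <;>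
    · intro w w' _ _ hh
      simp only [Cf.v3, Prod.mk.injEq] at hh ⊢
      tauto
  · have e1 : CH F.q (fun w => ((F.t₁ w, F.r w), F.tr w, F.ta w))
        (fun w => ((F.v₀ w, F.v₁ w, F.v₂ w), (F.t w, F.s w), F.Z w)) =
        CH F.q (fun w => (F.tr w, (F.t₁ w, F.r w, F.ta w)))
        (fun w => ((F.v₀ w, F.v₁ w, F.v₂ w), (F.t w, F.s w), F.Z w)) := by
      refine CH_congr hq ?_ ?_ (fun _ _ _ _ h => h) (fun _ _ _ _ h => h) <;>
      · intro w w' _ _ hh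
        simp only [Prod.mk.injEq] at hh ⊢
        tauto
    rw [e1] at hc
    refine (one_of_four hq h1 F.ht₁ F.hr F.hta hc).trans (le_of_eq ?_)
    refine CH_congr hq (fun w w' _ _ hh => (Prod.ext_iff.mp hh).1)
      (fun w w' _ _ hh => (Prod.ext_iff.mp hh).1) ?_ ?_ <;>
    · intro w w' _ _ hh
      simp only [Cf.v3, Prod.mk.injEq] at hh ⊢
      tauto
  · have e1 : CH F.q (fun w => ((F.t₁ w, F.r w), F.tr w, F.ta w))
        (fun w => ((F.v₀ w, F.v₁ w, F.v₂ w), (F.t w, F.s w), F.Z w)) =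
        CH F.q (fun w => (F.ta w, (F.t₁ w, F.r w, F.tr w)))
        (fun w => ((F.v₀ w, F.v₁ w, F.v₂ w), (F.t w, F.s w), F.Z w)) := by
      refine CH_congr hq ?_ ?_ (fun _ _ _ _ h => h) (fun _ _ _ _ h => h) <;>
      · intro w w' _ _ hh
        simp only [Prod.mk.injEq] at hh ⊢
        tauto
    rw [e1] at hc
    refine (one_of_four hq h1 F.ht₁ F.hr F.htr hc).trans (le_of_eq ?_)
    refine CH_congr hq (fun w w' _ _ hh => (Prod.ext_iff.mp hh).1)
      (fun w w' _ _ hh => (Prod.ext_iff.mp hh).1) ?_ ?_ <;>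
    · intro w w' _ _ hh
      simp only [Cf.v3, Prod.mk.injEq] at hh ⊢
      tauto

lemma range_cast {x : ℤ} (h : 0 ≤ x ∧ x < ((2 ^ J : ℕ) : ℤ)) : 0 ≤ x ∧ x < 2 ^ J := by
  refine ⟨h.1, ?_⟩
  have := h.2
  push_cast at this
  exact this

end TMS

open TMS in
theorem tms (hG : GAPStmt) : TMSStmt := by
  obtain ⟨C, hC, hG⟩ := hG
  intro d
  refine ⟨fun J F L sb e h => unif F L sb e h, 20 + 10 * C, by positivity, ?_⟩
  intro J F L sb e h
  obtain ⟨u1, u2, u3, u4⟩ := unif F L sb e h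
  have hq := F.hq
  have h1 := F.h1
  have d0 := hG J F.Ω _ F.q (fun w => ((F.v₀ w, F.v₁ w), F.t w, F.Z w)) F.s F.t e hq h1
    (fun w hw => range_cast (F.hs w hw))
    (fun w w' _ _ hh => by
      simp only [Prod.mk.injEq] at hh
      exact hh.2.1) h.cs
  have d1 := fun (y : F.Ω → ℤ) hy => hG J F.Ω _ F.q
    (fun w => (F.v3 w, (F.t w, F.s w), (F.r w, F.tr w, F.ta w), F.Z w)) F.t₁ y e hq h1
    (fun w hw => range_cast (F.ht₁ w hw)) hy u1
  have d2 := fun (y : F.Ω → ℤ) hy => hG J F.Ω _ F.q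
    (fun w => (F.v3 w, (F.t w, F.s w), (F.t₁ w, F.tr w, F.ta w), F.Z w)) F.r y e hq h1
    (fun w hw => range_cast (F.hr w hw)) hy u2
  have d3 := fun (y : F.Ω → ℤ) hy => hG J F.Ω _ F.q
    (fun w => (F.v3 w, (F.t w, F.s w), (F.t₁ w, F.r w, F.ta w), F.Z w)) F.tr y e hq h1
    (fun w hw => range_cast (F.htr w hw)) hy u3
  have d4 := fun (y : F.Ω → ℤ) hy => hG J F.Ω _ F.q
    (fun w => (F.v3 w, (F.t w, F.s w), (F.t₁ w, F.r w, F.tr w), F.Z w)) F.ta y e hq h1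
    (fun w hw => range_cast (F.hta w hw)) hy u4
  have k1 := d1 F.t (fun w w' _ _ hh => by
    simp only [Prod.mk.injEq] at hh
    exact hh.2.1.1)
  have k2 := d1 F.s (fun w w' _ _ hh => by
    simp only [Prod.mk.injEq] at hh
    exact hh.2.1.2)
  have k3 := d2 F.t (fun w w' _ _ hh => by
    simp only [Prod.mk.injEq] at hh
    exact hh.2.1.1)
  have k4 := d2 F.s (fun w w' _ _ hh => by
    simp only [Prod.mk.injEq] at hh
    exact hh.2.1.2)
  have k5 := d2 F.t₁ (fun w w' _ _ hh => by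
    simp only [Prod.mk.injEq] at hh
    exact hh.2.2.1.1)
  have k6 := d3 F.s (fun w w' _ _ hh => by
    simp only [Prod.mk.injEq] at hh
    exact hh.2.1.2)
  have k7 := d4 F.s (fun w w' _ _ hh => by
    simp only [Prod.mk.injEq] at hh
    exact hh.2.1.2)
  have k8 := d4 F.tr (fun w w' _ _ hh => by
    simp only [Prod.mk.injEq] at hh
    exact hh.2.2.1.2.2)
  have k9 := d4 F.TO (fun w w' _ _ hh => by
    simp only [Prod.mk.injEq] at hh
    obtain ⟨_, ⟨ht, hs⟩, ⟨ht₁, hr, _⟩, _⟩ := hh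
    simp only [Cf.TO, Cf.c, cP]
    rw [ht, hs, ht₁, hr])
  have k0 : F.eg F.t F.s ≤ 2 * e + C := by
    rw [eg_symm]
    exact d0
  have hlog : 0 ≤ Real.log ((J : ℝ) + 2) := Real.log_nonneg (by
    have : (0 : ℝ) ≤ J := Nat.cast_nonneg J
    linarith)
  have he := h.e0
  have hfin : F.eg F.t F.s + F.eg F.t₁ F.t + F.eg F.t₁ F.s + F.eg F.r F.t +
      F.eg F.r F.s + F.eg F.r F.t₁ + F.eg F.tr F.s + F.eg F.ta F.s + F.eg F.ta F.tr +
      F.eg F.ta F.TO ≤ 10 * (2 * e + C) := by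
    unfold Cf.eg at k0 ⊢
    linarith
  refine hfin.trans ?_
  unfold er
  nlinarith [mul_nonneg hC he, mul_nonneg hC hlog]

end Pool.KTH
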